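import Mathlib

set_option autoImplicit false

universe u

namespace Pool.Agent.Results.MP_f888fa_lc.FiniteBasis

/-! ## Terms, algebras, conditional equations -/

/-- Terms over the signature `(0, 1, ⊥, +, -, ·, ÷)` with variables `x_0, x_1, ...`. -/
inductive STerm : Type
  | var : ℕ → STerm
  | zero : STerm
  | one : STerm
  | bot : STerm
  | neg : STerm → STerm
  | add : STerm → STerm → STerm
  | mul : STerm → STerm → STerm
  | div : STerm → STerm → STerm

/-- An algebra for the signature `(0, 1, ⊥, +, -, ·, ÷)` on the carrier `A`. -/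
structure SigAlg (A : Type u) where
  zero : A
  one : A
  bot : A
  neg : A → A
  add : A → A → A
  mul : A → A → A
  div : A → A → A

/-- Value of a term in an algebra under a valuation of the variables. -/
def STerm.eval {A : Type u} (S : SigAlg A) (v : ℕ → A) : STerm → A
  | .var n => v n
  | .zero => S.zero
  | .one => S.one
  | .bot => S.bot
  | .neg s => S.neg (s.eval S v)
  | .add s t => S.add (s.eval S v) (t.eval S v)
  | .mul s t => S.mul (s.eval S v) (t.eval S v)
  | .div s t => S.div (s.eval S v) (t.eval S v)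

/-- Simultaneous substitution of terms for variables. -/
def STerm.subst (σ : ℕ → STerm) : STerm → STerm
  | .var n => σ n
  | .zero => .zero
  | .one => .one
  | .bot => .bot
  | .neg s => .neg (s.subst σ)
  | .add s t => .add (s.subst σ) (t.subst σ)
  | .mul s t => .mul (s.subst σ) (t.subst σ)
  | .div s t => .div (s.subst σ) (t.subst σ)

/-- A conditional equation `e_1 ∧ ... ∧ e_n → e`; an equation is a pair of terms. -/
structure CondEq : Type where
  prem : List (STerm × STerm)
  concl : STerm × STerm

/-- The conditional equation `φ` is true in the algebra `S` (variables read universally). -/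
def SigAlg.Sat {A : Type u} (S : SigAlg A) (φ : CondEq) : Prop :=
  ∀ v : ℕ → A, (∀ e ∈ φ.prem, e.1.eval S v = e.2.eval S v) →
    φ.concl.1.eval S v = φ.concl.2.eval S v

/-- `Derives E Γ s t`: the equation `s = t` is derivable in conditional equational logic from the
conditional equations in `E` (whose variables may be substituted) and the equations in `Γ`
(whose variables are held fixed). -/
inductive Derives (E : Set CondEq) (Γ : List (STerm × STerm)) : STerm → STerm → Prop
  | hyp (s t : STerm) : (s, t) ∈ Γ → Derives E Γ s t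
  | refl (s : STerm) : Derives E Γ s s
  | symm (s t : STerm) : Derives E Γ s t → Derives E Γ t s
  | trans (s t r : STerm) : Derives E Γ s t → Derives E Γ t r → Derives E Γ s r
  | neg (s t : STerm) : Derives E Γ s t → Derives E Γ (.neg s) (.neg t)
  | add (s t s' t' : STerm) : Derives E Γ s t → Derives E Γ s' t' →
      Derives E Γ (.add s s') (.add t t')
  | mul (s t s' t' : STerm) : Derives E Γ s t → Derives E Γ s' t' →
      Derives E Γ (.mul s s') (.mul t t')
  | div (s t s' t' : STerm) : Derives E Γ s t → Derives E Γ s' t' →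
      Derives E Γ (.div s s') (.div t t')
  | ax (ψ : CondEq) (σ : ℕ → STerm) : ψ ∈ E →
      (∀ e ∈ ψ.prem, Derives E Γ (e.1.subst σ) (e.2.subst σ)) →
      Derives E Γ (ψ.concl.1.subst σ) (ψ.concl.2.subst σ)

/-- `E ⊢ φ`: derivability of a conditional equation from a set of conditional equations. -/
def Derivable (E : Set CondEq) (φ : CondEq) : Prop :=
  Derives E φ.prem φ.concl.1 φ.concl.2

open Classical in
/-- The common meadow of a field `F`: the carrier is `F` with a new element `none` (this is `⊥`),
`⊥` is absorptive, and `x / y = x * y⁻¹` for `y ≠ 0`, `x / 0 = ⊥`. -/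
noncomputable def commonMeadow (F : Type u) [Field F] : SigAlg (Option F) where
  zero := some 0
  one := some 1
  bot := none
  neg x := match x with
    | some a => some (-a)
    | none => none
  add x y := match x, y with
    | some a, some b => some (a + b)
    | _, _ => none
  mul x y := match x, y with
    | some a, some b => some (a * b)
    | _, _ => none
  div x y := match x, y with
    | some a, some b => if b = 0 then none else some (a * b⁻¹)
    | _, _ => none

/-- Numerals: `1`, `2 = 1 + 1`, `3 = (1 + 1) + 1`, and so on. -/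
def numeral : ℕ → STerm
  | 0 => .zero
  | 1 => .one
  | (n + 2) => .add (numeral (n + 1)) .one

/-- The conditional equation `φ_p`: `0/2 · 0/3 = 0/2 · 0/p → 0/3 = 0/p`. -/
def phi (p : ℕ) : CondEq where
  prem := [(.mul (.div .zero (numeral 2)) (.div .zero (numeral 3)),
            .mul (.div .zero (numeral 2)) (.div .zero (numeral p)))]
  concl := (.div .zero (numeral 3), .div .zero (numeral p))

/-! ## Soundness and completeness of derivability -/

theorem eval_subst {A : Type u} (S : SigAlg A) (v : ℕ → A) (σ : ℕ → STerm) (s : STerm) :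
    (s.subst σ).eval S v = s.eval S (fun n => (σ n).eval S v) := by
  induction s with
  | var n => rfl
  | zero => rfl
  | one => rfl
  | bot => rfl
  | neg s ih => simp only [STerm.subst, STerm.eval, ih]
  | add s t ih1 ih2 => simp only [STerm.subst, STerm.eval, ih1, ih2]
  | mul s t ih1 ih2 => simp only [STerm.subst, STerm.eval, ih1, ih2]
  | div s t ih1 ih2 => simp only [STerm.subst, STerm.eval, ih1, ih2]

/-- Soundness of the derivability relation (sanity check of the definition). -/
theorem soundness {E : Set CondEq} {φ : CondEq} (h : Derivable E φ)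
    {A : Type u} (S : SigAlg A) (hE : ∀ ψ ∈ E, S.Sat ψ) : S.Sat φ := by
  intro v hv
  have key : ∀ s t, Derives E φ.prem s t → s.eval S v = t.eval S v := by
    intro s t hst
    induction hst with
    | hyp s t h => exact hv (s, t) h
    | refl s => rfl
    | symm s t _ ih => exact ih.symm
    | trans s t r _ _ ih1 ih2 => exact ih1.trans ih2
    | neg s t _ ih => simp only [STerm.eval, ih]
    | add s t s' t' _ _ ih1 ih2 => simp only [STerm.eval, ih1, ih2]
    | mul s t s' t' _ _ ih1 ih2 => simp only [STerm.eval, ih1, ih2]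
    | div s t s' t' _ _ ih1 ih2 => simp only [STerm.eval, ih1, ih2]
    | ax ψ σ hψ _ ih =>
      rw [eval_subst, eval_subst]
      apply hE ψ hψ
      intro e he
      have := ih e he
      rwa [eval_subst, eval_subst] at this
  exact key _ _ h

/-- The setoid on terms given by derivability from `E` and `Γ`. -/
def derSetoid (E : Set CondEq) (Γ : List (STerm × STerm)) : Setoid STerm where
  r := Derives E Γ
  iseqv := ⟨fun s => .refl s, fun {s t} h => .symm s t h, fun {s t r} h h' => .trans s t r h h'⟩

/-- The term algebra modulo derivability from `E` and `Γ`. -/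
def termAlg (E : Set CondEq) (Γ : List (STerm × STerm)) :
    SigAlg (Quotient (derSetoid E Γ)) where
  zero := Quotient.mk _ .zero
  one := Quotient.mk _ .one
  bot := Quotient.mk _ .bot
  neg := Quotient.map STerm.neg (fun s t h => Derives.neg s t h)
  add := Quotient.map₂ STerm.add (fun s t h s' t' h' => Derives.add s t s' t' h h')
  mul := Quotient.map₂ STerm.mul (fun s t h s' t' h' => Derives.mul s t s' t' h h')
  div := Quotient.map₂ STerm.div (fun s t h s' t' h' => Derives.div s t s' t' h h')

theorem eval_termAlg (E : Set CondEq) (Γ : List (STerm × STerm)) (σ : ℕ → STerm) (s : STerm) :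
    s.eval (termAlg E Γ) (fun n => Quotient.mk _ (σ n)) =
      (Quotient.mk (derSetoid E Γ) (s.subst σ)) := by
  induction s with
  | var n => rfl
  | zero => rfl
  | one => rfl
  | bot => rfl
  | neg s ih => simp only [STerm.subst, STerm.eval, ih]; rfl
  | add s t ih1 ih2 => simp only [STerm.subst, STerm.eval, ih1, ih2]; rfl
  | mul s t ih1 ih2 => simp only [STerm.subst, STerm.eval, ih1, ih2]; rfl
  | div s t ih1 ih2 => simp only [STerm.subst, STerm.eval, ih1, ih2]; rfl

theorem subst_var (s : STerm) : s.subst STerm.var = s := by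
  induction s with
  | var n => rfl
  | zero => rfl
  | one => rfl
  | bot => rfl
  | neg s ih => simp only [STerm.subst, ih]
  | add s t ih1 ih2 => simp only [STerm.subst, ih1, ih2]
  | mul s t ih1 ih2 => simp only [STerm.subst, ih1, ih2]
  | div s t ih1 ih2 => simp only [STerm.subst, ih1, ih2]

theorem termAlg_sat (E : Set CondEq) (Γ : List (STerm × STerm)) :
    ∀ ψ ∈ E, (termAlg E Γ).Sat ψ := by
  intro ψ hψ v hv
  have hσ : ∃ σ : ℕ → STerm, v = fun n => Quotient.mk _ (σ n) := by
    refine ⟨fun n => (v n).out, ?_⟩
    funext n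
    exact (Quotient.out_eq (v n)).symm
  obtain ⟨σ, rfl⟩ := hσ
  rw [eval_termAlg, eval_termAlg]
  apply Quotient.sound
  apply Derives.ax ψ σ hψ
  intro e he
  have := hv e he
  rw [eval_termAlg, eval_termAlg] at this
  exact Quotient.exact this

/-- Completeness: what is true in every algebra (with carrier in `Type`) satisfying `E` is
derivable from `E`. -/
theorem completeness {E : Set CondEq} {φ : CondEq}
    (h : ∀ (A : Type) (S : SigAlg A), (∀ ψ ∈ E, S.Sat ψ) → S.Sat φ) : Derivable E φ := by
  have h1 := h _ (termAlg E φ.prem) (termAlg_sat E φ.prem)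
  have h2 := h1 (fun n => Quotient.mk _ (STerm.var n)) (by
    intro e he
    rw [eval_termAlg, eval_termAlg, subst_var, subst_var]
    exact Quotient.sound (Derives.hyp e.1 e.2 he))
  rw [eval_termAlg, eval_termAlg, subst_var, subst_var] at h2
  exact Quotient.exact h2

/-! ## The finite set of conditional equations -/

open STerm in
/-- The finite basis: sixteen equations, the conditional equation
`a + 0/f = b + 0/f ∧ a + 0/(1 + -f) = b + 0/(1 + -f) → a + 0·f = b + 0·f`
and the conditional equation `x + 0/x = 0/x → x = 0·x`. -/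
def basis : List CondEq :=
  [ ⟨[], (add (add (var 0) (var 1)) (var 2), add (var 0) (add (var 1) (var 2)))⟩,
    ⟨[], (add (var 0) (var 1), add (var 1) (var 0))⟩,
    ⟨[], (add (var 0) zero, var 0)⟩,
    ⟨[], (add (var 0) (neg (var 0)), mul zero (var 0))⟩,
    ⟨[], (mul (mul (var 0) (var 1)) (var 2), mul (var 0) (mul (var 1) (var 2)))⟩,
    ⟨[], (mul (var 0) (var 1), mul (var 1) (var 0))⟩,
    ⟨[], (mul one (var 0), var 0)⟩,
    ⟨[], (mul (var 0) (add (var 1) (var 2)), add (mul (var 0) (var 1)) (mul (var 0) (var 2)))⟩,
    ⟨[], (neg (neg (var 0)), var 0)⟩,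
    ⟨[], (mul zero (mul (var 0) (var 1)), mul zero (add (var 0) (var 1)))⟩,
    ⟨[], (add (var 0) bot, bot)⟩,
    ⟨[], (div (var 0) (var 1), mul (var 0) (div one (var 1)))⟩,
    ⟨[], (mul (var 0) (div one (var 0)), add one (mul zero (div one (var 0))))⟩,
    ⟨[], (div one (mul (var 0) (var 1)), mul (div one (var 0)) (div one (var 1)))⟩,
    ⟨[], (div one (add one (mul zero (var 0))), add one (mul zero (var 0)))⟩,
    ⟨[], (div one zero, bot)⟩,
    ⟨[(add (var 0) (div zero (var 2)), add (var 1) (div zero (var 2))),
      (add (var 0) (div zero (add one (neg (var 2)))),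
        add (var 1) (div zero (add one (neg (var 2)))))],
      (add (var 0) (mul zero (var 2)), add (var 1) (mul zero (var 2)))⟩,
    ⟨[(add (var 0) (div zero (var 0)), div zero (var 0))],
      (var 0, mul zero (var 0))⟩ ]

theorem aux_ax1 {F : Type u} [Field F] (x y z : Option F)
    (h1 : (commonMeadow F).add x ((commonMeadow F).div (some 0) z) =
      (commonMeadow F).add y ((commonMeadow F).div (some 0) z))
    (h2 : (commonMeadow F).add x ((commonMeadow F).div (some 0)
        ((commonMeadow F).add (some 1) ((commonMeadow F).neg z))) =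
      (commonMeadow F).add y ((commonMeadow F).div (some 0)
        ((commonMeadow F).add (some 1) ((commonMeadow F).neg z)))) :
    (commonMeadow F).add x ((commonMeadow F).mul (some 0) z) =
      (commonMeadow F).add y ((commonMeadow F).mul (some 0) z) := by
  rcases z with _ | z
  · rcases x with _ | x <;> rcases y with _ | y <;> rfl
  · by_cases hz : z = 0
    · subst hz
      rcases x with _ | x <;> rcases y with _ | y <;> simp [commonMeadow] at h2 ⊢
      exact h2
    · rcases x with _ | x <;> rcases y with _ | y <;> simp [commonMeadow, hz] at h1 ⊢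
      exact h1

theorem aux_ax2 {F : Type u} [Field F] (x : Option F)
    (h1 : (commonMeadow F).add x ((commonMeadow F).div (some 0) x) =
      (commonMeadow F).div (some 0) x) :
    x = (commonMeadow F).mul (some 0) x := by
  rcases x with _ | x
  · rfl
  · by_cases hx : x = 0
    · subst hx
      simp [commonMeadow]
    · simp [commonMeadow, hx] at h1

theorem aux_mul_inv {F : Type u} [Field F] (x : Option F) :
    (commonMeadow F).mul x ((commonMeadow F).div (some 1) x) =
      (commonMeadow F).add (some 1) ((commonMeadow F).mul (some 0)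
        ((commonMeadow F).div (some 1) x)) := by
  rcases x with _ | x
  · rfl
  · by_cases hx : x = 0
    · subst hx
      simp [commonMeadow]
    · simp [commonMeadow, hx]

/-- Each member of `basis` is true in every common meadow. -/
theorem basis_valid (φ : CondEq) (hφ : φ ∈ basis) (F : Type u) [Field F] :
    (commonMeadow F).Sat φ := by
  simp only [basis, List.mem_cons, List.not_mem_nil, or_false] at hφ
  rcases hφ with rfl | rfl | rfl | rfl | rfl | rfl | rfl | rfl | rfl | rfl | rfl | rfl | rfl |
    rfl | rfl | rfl | rfl | rfl <;> intro v hv <;> simp only [STerm.eval]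
  · rcases v 0 with _ | x <;> rcases v 1 with _ | y <;> rcases v 2 with _ | z <;>
      simp [commonMeadow, add_assoc]
  · rcases v 0 with _ | x <;> rcases v 1 with _ | y <;> simp [commonMeadow, add_comm]
  · rcases v 0 with _ | x <;> simp [commonMeadow]
  · rcases v 0 with _ | x <;> simp [commonMeadow]
  · rcases v 0 with _ | x <;> rcases v 1 with _ | y <;> rcases v 2 with _ | z <;>
      simp [commonMeadow, mul_assoc]
  · rcases v 0 with _ | x <;> rcases v 1 with _ | y <;> simp [commonMeadow, mul_comm]
  · rcases v 0 with _ | x <;> simp [commonMeadow]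
  · rcases v 0 with _ | x <;> rcases v 1 with _ | y <;> rcases v 2 with _ | z <;>
      simp [commonMeadow, mul_add]
  · rcases v 0 with _ | x <;> simp [commonMeadow]
  · rcases v 0 with _ | x <;> rcases v 1 with _ | y <;> simp [commonMeadow]
  · rcases v 0 with _ | x <;> simp [commonMeadow]
  · rcases v 0 with _ | x <;> rcases v 1 with _ | y
    · simp [commonMeadow]
    · by_cases hy : y = 0 <;> simp [commonMeadow, hy]
    · simp [commonMeadow]
    · by_cases hy : y = 0 <;> simp [commonMeadow, hy]
  · exact aux_mul_inv _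
  · rcases v 0 with _ | x <;> rcases v 1 with _ | y
    · simp [commonMeadow]
    · by_cases hy : y = 0 <;> simp [commonMeadow, hy]
    · by_cases hx : x = 0 <;> simp [commonMeadow, hx]
    · by_cases hx : x = 0 <;> by_cases hy : y = 0 <;> simp [commonMeadow, hx, hy, mul_comm]
  · rcases v 0 with _ | x <;> simp [commonMeadow]
  · simp [commonMeadow]
  · exact aux_ax1 _ _ _ (hv _ (List.Mem.head _)) (hv _ (List.Mem.tail _ (List.Mem.head _)))
  · exact aux_ax2 _ (hv _ (List.Mem.head _))

/-! ## Algebra in a model of the basis -/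

/-- A type with the operations of the signature that satisfies the basis. -/
class CM (A : Type u) extends Zero A, One A, Neg A, Add A, Mul A, Div A where
  bot : A
  add_assoc' : ∀ x y z : A, (x + y) + z = x + (y + z)
  add_comm' : ∀ x y : A, x + y = y + x
  add_zero' : ∀ x : A, x + 0 = x
  add_neg' : ∀ x : A, x + (-x) = 0 * x
  mul_assoc' : ∀ x y z : A, (x * y) * z = x * (y * z)
  mul_comm' : ∀ x y : A, x * y = y * x
  one_mul' : ∀ x : A, 1 * x = x
  mul_add' : ∀ x y z : A, x * (y + z) = x * y + x * z
  neg_neg' : ∀ x : A, -(-x) = x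
  e_mul' : ∀ x y : A, 0 * (x * y) = 0 * (x + y)
  add_bot' : ∀ x : A, x + bot = bot
  div_eq' : ∀ x y : A, x / y = x * (1 / y)
  mul_inv' : ∀ x : A, x * (1 / x) = 1 + 0 * (1 / x)
  inv_mul' : ∀ x y : A, 1 / (x * y) = (1 / x) * (1 / y)
  inv_e' : ∀ x : A, 1 / (1 + 0 * x) = 1 + 0 * x
  inv_zero' : (1 : A) / 0 = bot
  ax1 : ∀ a b f : A, a + 0 / f = b + 0 / f → a + 0 / (1 + -f) = b + 0 / (1 + -f) →
    a + 0 * f = b + 0 * f
  ax2 : ∀ x : A, x + 0 / x = 0 / x → x = 0 * x

/-- An algebra satisfying the basis gives an instance of `CM`. -/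
@[reducible] def toCM {A : Type u} (S : SigAlg A) (hS : ∀ ψ ∈ basis, S.Sat ψ) : CM A where
  zero := S.zero
  one := S.one
  neg := S.neg
  add := S.add
  mul := S.mul
  div := S.div
  bot := S.bot
  add_assoc' x y z := by
    have := hS ⟨[], (.add (.add (.var 0) (.var 1)) (.var 2), .add (.var 0) (.add (.var 1) (.var 2)))⟩
      (by simp [basis])
    exact this (fun n => if n = 0 then x else if n = 1 then y else z) (by simp)
  add_comm' x y := by
    have := hS ⟨[], (.add (.var 0) (.var 1), .add (.var 1) (.var 0))⟩ (by simp [basis])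
    exact this (fun n => if n = 0 then x else y) (by simp)
  add_zero' x := by
    have := hS ⟨[], (.add (.var 0) .zero, .var 0)⟩ (by simp [basis])
    exact this (fun n => x) (by simp)
  add_neg' x := by
    have := hS ⟨[], (.add (.var 0) (.neg (.var 0)), .mul .zero (.var 0))⟩ (by simp [basis])
    exact this (fun n => x) (by simp)
  mul_assoc' x y z := by
    have := hS ⟨[], (.mul (.mul (.var 0) (.var 1)) (.var 2), .mul (.var 0) (.mul (.var 1) (.var 2)))⟩
      (by simp [basis])
    exact this (fun n => if n = 0 then x else if n = 1 then y else z) (by simp)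
  mul_comm' x y := by
    have := hS ⟨[], (.mul (.var 0) (.var 1), .mul (.var 1) (.var 0))⟩ (by simp [basis])
    exact this (fun n => if n = 0 then x else y) (by simp)
  one_mul' x := by
    have := hS ⟨[], (.mul .one (.var 0), .var 0)⟩ (by simp [basis])
    exact this (fun n => x) (by simp)
  mul_add' x y z := by
    have := hS ⟨[], (.mul (.var 0) (.add (.var 1) (.var 2)),
      .add (.mul (.var 0) (.var 1)) (.mul (.var 0) (.var 2)))⟩ (by simp [basis])
    exact this (fun n => if n = 0 then x else if n = 1 then y else z) (by simp)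
  neg_neg' x := by
    have := hS ⟨[], (.neg (.neg (.var 0)), .var 0)⟩ (by simp [basis])
    exact this (fun n => x) (by simp)
  e_mul' x y := by
    have := hS ⟨[], (.mul .zero (.mul (.var 0) (.var 1)), .mul .zero (.add (.var 0) (.var 1)))⟩
      (by simp [basis])
    exact this (fun n => if n = 0 then x else y) (by simp)
  add_bot' x := by
    have := hS ⟨[], (.add (.var 0) .bot, .bot)⟩ (by simp [basis])
    exact this (fun n => x) (by simp)
  div_eq' x y := by
    have := hS ⟨[], (.div (.var 0) (.var 1), .mul (.var 0) (.div .one (.var 1)))⟩ (by simp [basis])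
    exact this (fun n => if n = 0 then x else y) (by simp)
  mul_inv' x := by
    have := hS ⟨[], (.mul (.var 0) (.div .one (.var 0)),
      .add .one (.mul .zero (.div .one (.var 0))))⟩ (by simp [basis])
    exact this (fun n => x) (by simp)
  inv_mul' x y := by
    have := hS ⟨[], (.div .one (.mul (.var 0) (.var 1)),
      .mul (.div .one (.var 0)) (.div .one (.var 1)))⟩ (by simp [basis])
    exact this (fun n => if n = 0 then x else y) (by simp)
  inv_e' x := by
    have := hS ⟨[], (.div .one (.add .one (.mul .zero (.var 0))),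
      .add .one (.mul .zero (.var 0)))⟩ (by simp [basis])
    exact this (fun n => x) (by simp)
  inv_zero' := by
    have := hS ⟨[], (.div .one .zero, .bot)⟩ (by simp [basis])
    exact this (fun n => S.zero) (by simp)
  ax1 a b f h1 h2 := by
    have := hS ⟨[(.add (.var 0) (.div .zero (.var 2)), .add (.var 1) (.div .zero (.var 2))),
      (.add (.var 0) (.div .zero (.add .one (.neg (.var 2)))),
        .add (.var 1) (.div .zero (.add .one (.neg (.var 2)))))],
      (.add (.var 0) (.mul .zero (.var 2)), .add (.var 1) (.mul .zero (.var 2)))⟩ (by simp [basis])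
    refine this (fun n => if n = 0 then a else if n = 1 then b else f) ?_
    intro e he
    simp only [List.mem_cons, List.not_mem_nil, or_false] at he
    rcases he with rfl | rfl
    · exact h1
    · exact h2
  ax2 x h := by
    have := hS ⟨[(.add (.var 0) (.div .zero (.var 0)), .div .zero (.var 0))],
      (.var 0, .mul .zero (.var 0))⟩ (by simp [basis])
    refine this (fun n => x) ?_
    intro e he
    simp only [List.mem_cons, List.not_mem_nil, or_false] at he
    rcases he with rfl
    exact h

section CMFacts

variable {A : Type u} [CM A]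

theorem zero_add' (x : A) : 0 + x = x := by rw [CM.add_comm', CM.add_zero']

theorem mul_one' (x : A) : x * 1 = x := by rw [CM.mul_comm', CM.one_mul']

theorem add_left_comm' (x y z : A) : x + (y + z) = y + (x + z) := by
  rw [← CM.add_assoc', CM.add_comm' x y, CM.add_assoc']

theorem mul_left_comm' (x y z : A) : x * (y * z) = y * (x * z) := by
  rw [← CM.mul_assoc', CM.mul_comm' x y, CM.mul_assoc']

theorem add_mul' (x y z : A) : (x + y) * z = x * z + y * z := by
  rw [CM.mul_comm', CM.mul_add', CM.mul_comm' z x, CM.mul_comm' z y]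

theorem zero_mul_zero' : (0 : A) * 0 = 0 := by
  have h := CM.e_mul' (0 : A) 1
  rwa [mul_one', zero_add', mul_one'] at h

theorem e_e (x : A) : 0 * (0 * x) = 0 * x := by
  have h := CM.e_mul' 0 x
  rwa [zero_add'] at h

theorem e_add (x y : A) : 0 * (x + y) = 0 * x + 0 * y := CM.mul_add' _ _ _

theorem e_mul (x y : A) : 0 * (x * y) = 0 * x + 0 * y := by
  rw [CM.e_mul', e_add]

theorem e_neg (x : A) : 0 * (-x) = 0 * x := by
  rw [← CM.add_neg', ← CM.add_neg', CM.neg_neg', CM.add_comm']

theorem e_one : (0 : A) * 1 = 0 := mul_one' _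

theorem add_e (x : A) : x + 0 * x = x := by
  have h := CM.mul_add' x 1 0
  rw [CM.add_zero', mul_one', CM.mul_comm' x 0] at h
  exact h.symm

theorem e_idem (x : A) : 0 * x + 0 * x = 0 * x := by
  have h := add_e (0 * x)
  rwa [e_e] at h

theorem neg_eq (x : A) : -x = (-1) * x := by
  have h1 : x + (-1) * x = 0 * x := by
    have h := add_mul' (1 : A) (-1) x
    rw [CM.add_neg', e_one, CM.one_mul'] at h
    exact h.symm
  have h2 : 0 * ((-1) * x) = 0 * x := by
    rw [e_mul, e_neg, e_one, zero_add']
  calc -x = -x + 0 * (-x) := (add_e _).symm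
    _ = -x + (x + (-1) * x) := by rw [e_neg, h1]
    _ = (x + -x) + (-1) * x := by rw [← CM.add_assoc', CM.add_comm' (-x) x]
    _ = (-1) * x + 0 * ((-1) * x) := by rw [CM.add_neg', h2, CM.add_comm']
    _ = (-1) * x := add_e _

/-- For an element `z` of the form `0 * _`, multiplication by `z` is addition. -/
theorem mul_of_e {z : A} (hz : 0 * z = z) (y : A) : z * y = z + 0 * y := by
  calc z * y = (0 * z) * y := by rw [hz]
    _ = 0 * z + 0 * y := by rw [CM.mul_assoc', e_mul]
    _ = z + 0 * y := by rw [hz]

theorem neg_of_e {z : A} (hz : 0 * z = z) : -z = z := by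
  rw [neg_eq, CM.mul_comm', mul_of_e hz, e_neg, e_one, CM.add_zero']

theorem neg_add' (x y : A) : -(x + y) = -x + -y := by
  rw [neg_eq, CM.mul_add', ← neg_eq, ← neg_eq]

theorem e_le_e_inv (x : A) : 0 * x + 0 * (1 / x) = 0 * (1 / x) := by
  have h := congrArg (fun y => 0 * y) (CM.mul_inv' x)
  simp only [e_mul, e_add, e_one, zero_mul_zero', zero_add'] at h
  exact h

theorem e_bot : (0 : A) * CM.bot = CM.bot := by
  rw [← CM.add_neg', CM.add_comm', CM.add_bot']

end CMFacts

/-- Ideals of the semilattice `{z | 0 * z = z}` of a model. -/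
structure IsIdl {A : Type u} [CM A] (P : Set A) : Prop where
  e_self : ∀ z ∈ P, 0 * z = z
  zero_mem : (0 : A) ∈ P
  add_mem : ∀ z ∈ P, ∀ w ∈ P, z + w ∈ P
  down : ∀ z w : A, 0 * z + w ∈ P → 0 * z ∈ P

/-- The elements whose zero `0 * x` lies in `P`. -/
def Good {A : Type u} [CM A] (P : Set A) : Type u := {x : A // 0 * x ∈ P}

/-- Two good elements are identified when they agree after adding some `z ∈ P`. -/
def goodSetoid {A : Type u} [CM A] (P : Set A) (hP : IsIdl P) : Setoid (Good P) where
  r x y := ∃ z ∈ P, x.1 + z = y.1 + z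
  iseqv := by
    refine ⟨fun x => ⟨0, hP.zero_mem, rfl⟩, ?_, ?_⟩
    · rintro x y ⟨z, hz, h⟩
      exact ⟨z, hz, h.symm⟩
    · rintro x y w ⟨z, hz, h⟩ ⟨z', hz', h'⟩
      refine ⟨z + z', hP.add_mem z hz z' hz', ?_⟩
      calc x.1 + (z + z') = (x.1 + z) + z' := (CM.add_assoc' _ _ _).symm
        _ = (y.1 + z') + z := by
          rw [h, CM.add_assoc', CM.add_comm' z z', ← CM.add_assoc']
        _ = w.1 + (z + z') := by
          rw [h', CM.add_assoc', CM.add_comm' z' z]

/-- The direct limit of the rings `{x | 0 * x = z}` over `z ∈ P`. -/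
def Lim {A : Type u} [CM A] (P : Set A) (hP : IsIdl P) : Type u := Quotient (goodSetoid P hP)

section LimRing

variable {A : Type u} [CM A] {P : Set A} (hP : IsIdl P)

/-- The class of a good element. -/
def mkL (x : A) (hx : 0 * x ∈ P) : Lim P hP := Quotient.mk (goodSetoid P hP) ⟨x, hx⟩

theorem mkL_eq_iff (x y : A) (hx : 0 * x ∈ P) (hy : 0 * y ∈ P) :
    mkL hP x hx = mkL hP y hy ↔ ∃ z ∈ P, x + z = y + z := by
  constructor
  · intro h
    exact Quotient.exact h
  · intro h
    exact Quotient.sound h

theorem ind {motive : Lim P hP → Prop} (h : ∀ (x : A) (hx : 0 * x ∈ P), motive (mkL hP x hx))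
    (q : Lim P hP) : motive q := by
  induction q using Quotient.inductionOn with
  | h a => exact h a.1 a.2

include hP in
theorem good_add {x y : A} (hx : 0 * x ∈ P) (hy : 0 * y ∈ P) : 0 * (x + y) ∈ P := by
  rw [e_add]; exact hP.add_mem _ hx _ hy

include hP in
theorem good_mul {x y : A} (hx : 0 * x ∈ P) (hy : 0 * y ∈ P) : 0 * (x * y) ∈ P := by
  rw [e_mul]; exact hP.add_mem _ hx _ hy

theorem good_neg {x : A} (hx : 0 * x ∈ P) : 0 * (-x) ∈ P := by
  rw [e_neg]; exact hx

include hP in
theorem good_zero : (0 : A) * 0 ∈ P := by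
  rw [zero_mul_zero']; exact hP.zero_mem

include hP in
theorem good_one : (0 : A) * 1 ∈ P := by
  rw [e_one]; exact hP.zero_mem

/-- Addition on the direct limit. -/
def addL : Lim P hP → Lim P hP → Lim P hP :=
  Quotient.map₂ (fun x y => ⟨x.1 + y.1, good_add hP x.2 y.2⟩) (by
    rintro x x' ⟨z, hz, h⟩ y y' ⟨w, hw, h'⟩
    refine ⟨z + w, hP.add_mem z hz w hw, ?_⟩
    change x.1 + y.1 + (z + w) = x'.1 + y'.1 + (z + w)
    calc x.1 + y.1 + (z + w) = (x.1 + z) + (y.1 + w) := by
          rw [CM.add_assoc', CM.add_assoc', add_left_comm' y.1 z w]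
      _ = (x'.1 + z) + (y'.1 + w) := by rw [h, h']
      _ = x'.1 + y'.1 + (z + w) := by
          rw [CM.add_assoc', CM.add_assoc', add_left_comm' y'.1 z w])

include hP in
theorem mul_add_aux {x y z w : A} (hz : z ∈ P) (hw : w ∈ P) :
    (x + z) * (y + w) = x * y + (z + w) := by
  have hz' := hP.e_self z hz
  have hw' := hP.e_self w hw
  have h1 : x * w = w + 0 * x := by rw [CM.mul_comm', mul_of_e hw']
  have h2 : z * y = z + 0 * y := mul_of_e hz' y
  have h3 : z * w = z + w := by rw [mul_of_e hz', hw']
  have h4 : x * y + (0 * x + 0 * y) = x * y := by rw [← e_mul, add_e]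
  have h5 : (z + w) + (z + w) = z + w := by
    have : 0 * (z + w) = z + w := by rw [e_add, hz', hw']
    calc (z + w) + (z + w) = (z + w) + 0 * (z + w) := by rw [this]
      _ = z + w := add_e _
  calc (x + z) * (y + w) = (x * y + z * y) + (x * w + z * w) := by
        rw [CM.mul_add', add_mul', add_mul']
    _ = (x * y + (z + 0 * y)) + ((w + 0 * x) + (z + w)) := by rw [h1, h2, h3]
    _ = (x * y + (0 * x + 0 * y)) + ((z + w) + (z + w)) := by
        simp only [CM.add_assoc', CM.add_comm', add_left_comm']
    _ = x * y + (z + w) := by rw [h4, h5]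

/-- Multiplication on the direct limit. -/
def mulL : Lim P hP → Lim P hP → Lim P hP :=
  Quotient.map₂ (fun x y => ⟨x.1 * y.1, good_mul hP x.2 y.2⟩) (by
    rintro x x' ⟨z, hz, h⟩ y y' ⟨w, hw, h'⟩
    refine ⟨z + w, hP.add_mem z hz w hw, ?_⟩
    change x.1 * y.1 + (z + w) = x'.1 * y'.1 + (z + w)
    rw [← mul_add_aux hP hz hw, ← mul_add_aux hP hz hw, h, h'])

/-- Negation on the direct limit. -/
def negL : Lim P hP → Lim P hP :=
  Quotient.map (fun x => ⟨-x.1, good_neg x.2⟩) (by
    rintro x x' ⟨z, hz, h⟩
    refine ⟨z, hz, ?_⟩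
    change -x.1 + z = -x'.1 + z
    have hz' := neg_of_e (hP.e_self z hz)
    calc -x.1 + z = -x.1 + -z := by rw [hz']
      _ = -x'.1 + -z := by rw [← neg_add', ← neg_add', h]
      _ = -x'.1 + z := by rw [hz'])

theorem mkL_congr {x y : A} (h : x = y) (hx : 0 * x ∈ P) (hy : 0 * y ∈ P) :
    mkL hP x hx = mkL hP y hy := by
  subst h; rfl

instance instZeroLim : Zero (Lim P hP) := ⟨mkL hP 0 (good_zero hP)⟩

instance instOneLim : One (Lim P hP) := ⟨mkL hP 1 (good_one hP)⟩

instance instAddLim : Add (Lim P hP) := ⟨addL hP⟩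

instance instMulLim : Mul (Lim P hP) := ⟨mulL hP⟩

instance instNegLim : Neg (Lim P hP) := ⟨negL hP⟩

noncomputable instance instCommRingLim : CommRing (Lim P hP) where
  nsmul := nsmulRec
  zsmul := zsmulRec
  add_assoc a b c := by
    induction a using ind with
    | h x hx => induction b using ind with
      | h y hy => induction c using ind with
        | h z hz => exact mkL_congr hP (CM.add_assoc' x y z) _ _
  zero_add a := by
    induction a using ind with
    | h x hx => exact mkL_congr hP (zero_add' x) _ _
  add_zero a := by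
    induction a using ind with
    | h x hx => exact mkL_congr hP (CM.add_zero' x) _ _
  add_comm a b := by
    induction a using ind with
    | h x hx => induction b using ind with
      | h y hy => exact mkL_congr hP (CM.add_comm' x y) _ _
  left_distrib a b c := by
    induction a using ind with
    | h x hx => induction b using ind with
      | h y hy => induction c using ind with
        | h z hz => exact mkL_congr hP (CM.mul_add' x y z) _ _
  right_distrib a b c := by
    induction a using ind with
    | h x hx => induction b using ind with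
      | h y hy => induction c using ind with
        | h z hz => exact mkL_congr hP (add_mul' x y z) _ _
  zero_mul a := by
    induction a using ind with
    | h x hx =>
      refine (mkL_eq_iff hP (0 * x) 0 _ _).2 ⟨0 * x, hx, ?_⟩
      rw [e_idem, zero_add']
  mul_zero a := by
    induction a using ind with
    | h x hx =>
      refine (mkL_eq_iff hP (x * 0) 0 _ _).2 ⟨0 * x, hx, ?_⟩
      rw [CM.mul_comm', e_idem, zero_add']
  mul_assoc a b c := by
    induction a using ind with
    | h x hx => induction b using ind with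
      | h y hy => induction c using ind with
        | h z hz => exact mkL_congr hP (CM.mul_assoc' x y z) _ _
  one_mul a := by
    induction a using ind with
    | h x hx => exact mkL_congr hP (CM.one_mul' x) _ _
  mul_one a := by
    induction a using ind with
    | h x hx => exact mkL_congr hP (mul_one' x) _ _
  neg_add_cancel a := by
    induction a using ind with
    | h x hx =>
      refine (mkL_eq_iff hP (-x + x) 0 _ _).2 ⟨0 * x, hx, ?_⟩
      rw [CM.add_comm' (-x) x, CM.add_neg', e_idem, zero_add']
  mul_comm a b := by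
    induction a using ind with
    | h x hx => induction b using ind with
      | h y hy => exact mkL_congr hP (CM.mul_comm' x y) _ _

theorem mkL_add (x y : A) (hx : 0 * x ∈ P) (hy : 0 * y ∈ P) :
    mkL hP (x + y) (good_add hP hx hy) = mkL hP x hx + mkL hP y hy := rfl

theorem mkL_mul (x y : A) (hx : 0 * x ∈ P) (hy : 0 * y ∈ P) :
    mkL hP (x * y) (good_mul hP hx hy) = mkL hP x hx * mkL hP y hy := rfl

theorem mkL_neg (x : A) (hx : 0 * x ∈ P) :
    mkL hP (-x) (good_neg hx) = - mkL hP x hx := rfl

theorem mkL_zero : mkL hP 0 (good_zero hP) = 0 := rfl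

theorem mkL_one : mkL hP 1 (good_one hP) = 1 := rfl

include hP in
theorem good_of_inv {x : A} (hx : 0 * (1 / x) ∈ P) : 0 * x ∈ P := by
  apply hP.down x (0 * (1 / x))
  rw [e_le_e_inv]
  exact hx

theorem mkL_mul_inv (x : A) (hx : 0 * (1 / x) ∈ P) :
    mkL hP x (good_of_inv hP hx) * mkL hP (1 / x) hx = 1 := by
  rw [← mkL_mul, ← mkL_one, mkL_eq_iff]
  refine ⟨0 * (1 / x), hx, ?_⟩
  rw [CM.mul_inv', CM.add_assoc', e_idem]

theorem isUnit_mkL_iff (x : A) (hx : 0 * x ∈ P) :
    IsUnit (mkL hP x hx) ↔ 0 * (1 / x) ∈ P := by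
  constructor
  · intro h
    obtain ⟨b, hb⟩ := isUnit_iff_exists_inv.1 h
    induction b using ind with
    | h y hy =>
      rw [← mkL_mul, ← mkL_one, mkL_eq_iff] at hb
      obtain ⟨z, hz, hzz⟩ := hb
      have hz' := hP.e_self z hz
      have h1 : x * y + z = (x * y) * (1 + z) := by
        rw [CM.mul_add', mul_one', CM.mul_comm' (x * y) z, mul_of_e hz', CM.add_comm' z,
          ← CM.add_assoc', add_e]
      have h2 : 1 / (1 + z) = 1 + z := by
        have := CM.inv_e' z
        rwa [hz'] at this
      have h3 : (1 / x * (1 / y)) * (1 + z) = 1 + z := by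
        calc (1 / x * (1 / y)) * (1 + z) = 1 / ((x * y) * (1 + z)) := by
              rw [CM.inv_mul', CM.inv_mul', h2]
          _ = 1 + z := by rw [← h1, hzz, h2]
      have h4 := congrArg (fun t => 0 * t) h3
      simp only [e_mul, e_add, e_one, zero_add', hz'] at h4
      apply hP.down (1 / x) (0 * (1 / y) + z)
      rw [← CM.add_assoc', h4]
      exact hz
  · intro h
    exact IsUnit.of_mul_eq_one _ (mkL_mul_inv hP x h)

end LimRing

/-- An ideal maximal among those not identifying `a` and `b`. -/
theorem exists_max {A : Type u} [CM A] {a b : A} (hab : a ≠ b) :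
    ∃ P : Set A, IsIdl P ∧ (∀ z ∈ P, a + z ≠ b + z) ∧
      ∀ c : A, 0 * c ∉ P → ∃ z ∈ P, a + z + 0 * c = b + z + 0 * c := by
  let S : Set (Set A) := {P | IsIdl P ∧ ∀ z ∈ P, a + z ≠ b + z}
  have h0 : ({0} : Set A) ∈ S := by
    refine ⟨⟨?_, rfl, ?_, ?_⟩, ?_⟩
    · rintro z rfl; exact zero_mul_zero'
    · rintro z rfl w rfl; exact CM.add_zero' 0
    · intro z w hzw
      have h1 : 0 * z + w = 0 := hzw
      have h2 := congrArg (fun t => 0 * t) h1
      simp only [e_add, e_e, zero_mul_zero'] at h2
      have h3 : 0 * z + (0 * z + 0 * w) = 0 * z + 0 * w := by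
        rw [← CM.add_assoc', e_idem]
      rw [h2, CM.add_zero'] at h3
      exact h3
    · rintro z rfl
      rw [CM.add_zero', CM.add_zero']
      exact hab
  obtain ⟨P, hPmax⟩ := zorn_subset S (by
    intro c hcS hc
    rcases c.eq_empty_or_nonempty with rfl | hne
    · exact ⟨{0}, h0, by simp⟩
    · refine ⟨⋃₀ c, ⟨⟨?_, ?_, ?_, ?_⟩, ?_⟩, fun s hs => Set.subset_sUnion_of_mem hs⟩
      · rintro z ⟨s, hs, hz⟩
        exact (hcS hs).1.e_self z hz
      · obtain ⟨s, hs⟩ := hne
        exact ⟨s, hs, (hcS hs).1.zero_mem⟩
      · rintro z ⟨s, hs, hz⟩ w ⟨t, ht, hw⟩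
        rcases hc.total hs ht with hst | hts
        · exact ⟨t, ht, (hcS ht).1.add_mem z (hst hz) w hw⟩
        · exact ⟨s, hs, (hcS hs).1.add_mem z hz w (hts hw)⟩
      · rintro z w ⟨s, hs, hz⟩
        exact ⟨s, hs, (hcS hs).1.down z w hz⟩
      · rintro z ⟨s, hs, hz⟩
        exact (hcS hs).2 z hz)
  have hP : IsIdl P := hPmax.prop.1
  refine ⟨P, hP, hPmax.prop.2, ?_⟩
  intro c hc
  let P' : Set A := {w | 0 * w = w ∧ ∃ z ∈ P, w + (z + 0 * c) = z + 0 * c}
  have hP' : IsIdl P' := by
    refine ⟨fun z hz => hz.1, ⟨zero_mul_zero', 0, hP.zero_mem, zero_add' _⟩, ?_, ?_⟩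
    · rintro w ⟨hw, z, hz, hwz⟩ w' ⟨hw', z', hz', hwz'⟩
      refine ⟨by rw [e_add, hw, hw'], z + z', hP.add_mem z hz z' hz', ?_⟩
      have he : 0 * c + 0 * c = 0 * c := e_idem c
      calc w + w' + (z + z' + 0 * c) = w + w' + (z + z' + (0 * c + 0 * c)) := by rw [he]
        _ = (w + (z + 0 * c)) + (w' + (z' + 0 * c)) := by
          simp only [CM.add_assoc', add_left_comm']
        _ = (z + 0 * c) + (z' + 0 * c) := by rw [hwz, hwz']
        _ = z + z' + (0 * c + 0 * c) := by
          simp only [CM.add_assoc', add_left_comm']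
        _ = z + z' + 0 * c := by rw [he]
    · rintro z0 w0 ⟨-, z, hz, hwz⟩
      refine ⟨e_e z0, z, hz, ?_⟩
      calc 0 * z0 + (z + 0 * c) = 0 * z0 + (0 * z0 + w0 + (z + 0 * c)) := by rw [hwz]
        _ = (0 * z0 + 0 * z0) + w0 + (z + 0 * c) := by simp only [CM.add_assoc']
        _ = z + 0 * c := by rw [e_idem, hwz]
  have hsub : P ⊆ P' := by
    intro w hw
    have hw' := hP.e_self w hw
    refine ⟨hw', w, hw, ?_⟩
    have : w + w = w := by
      calc w + w = w + 0 * w := by rw [hw']
        _ = w := add_e w
    rw [← CM.add_assoc', this]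
  have hcP' : 0 * c ∈ P' := by
    refine ⟨e_e c, 0, hP.zero_mem, ?_⟩
    rw [zero_add', e_idem]
  have hnot : P' ∉ S := by
    intro hS
    exact hc (hPmax.le_of_ge hS hsub hcP')
  have : ∃ w ∈ P', a + w = b + w := by
    by_contra hcon
    push Not at hcon
    exact hnot ⟨hP', hcon⟩
  obtain ⟨w, ⟨-, z, hz, hwz⟩, haw⟩ := this
  refine ⟨z, hz, ?_⟩
  calc a + z + 0 * c = a + (w + (z + 0 * c)) := by rw [hwz, CM.add_assoc']
    _ = b + (w + (z + 0 * c)) := by rw [← CM.add_assoc', haw, CM.add_assoc']
    _ = b + z + 0 * c := by rw [hwz, CM.add_assoc']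

open Classical in
/-- Two distinct elements of a model of the basis are separated by a homomorphism into a
common meadow. -/
theorem exists_sep {A : Type u} [CM A] {a b : A} (hab : a ≠ b) :
    ∃ (F : Type u) (_ : Field F) (h : A → Option F),
      h 0 = (commonMeadow F).zero ∧ h 1 = (commonMeadow F).one ∧
      h CM.bot = (commonMeadow F).bot ∧
      (∀ x, h (-x) = (commonMeadow F).neg (h x)) ∧
      (∀ x y, h (x + y) = (commonMeadow F).add (h x) (h y)) ∧
      (∀ x y, h (x * y) = (commonMeadow F).mul (h x) (h y)) ∧
      (∀ x y, h (x / y) = (commonMeadow F).div (h x) (h y)) ∧ h a ≠ h b := by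
  obtain ⟨P, hP, hsep, hmax⟩ := exists_max hab
  have hbot : CM.bot ∉ P := by
    intro h
    apply hsep _ h
    rw [CM.add_bot', CM.add_bot']
  have hnt : Nontrivial (Lim P hP) := by
    by_contra hcon
    rw [not_nontrivial_iff_subsingleton] at hcon
    have h1 : IsUnit (mkL hP 0 (good_zero hP)) := isUnit_of_subsingleton _
    rw [isUnit_mkL_iff, CM.inv_zero', e_bot] at h1
    exact hbot h1
  have hloc : IsLocalRing (Lim P hP) := by
    apply IsLocalRing.of_isUnit_or_isUnit_one_sub_self
    intro q
    induction q using ind with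
    | h f hf =>
      by_cases h1 : 0 * (1 / f) ∈ P
      · left; exact (isUnit_mkL_iff hP f hf).2 h1
      · right
        by_cases h2 : 0 * (1 / (1 + -f)) ∈ P
        · have h3 : 0 * (1 + -f) ∈ P := good_add hP (good_one hP) (good_neg hf)
          have h4 := (isUnit_mkL_iff hP (1 + -f) h3).2 h2
          have h5 : mkL hP (1 + -f) h3 = 1 - mkL hP f hf := by
            rw [sub_eq_add_neg]; rfl
          rwa [h5] at h4
        · exfalso
          obtain ⟨z, hz, hz1⟩ := hmax _ h1
          obtain ⟨z', hz', hz1'⟩ := hmax _ h2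
          have h3 := CM.ax1 (a + (z + z')) (b + (z + z')) f (by
            rw [CM.div_eq' 0 f]
            calc a + (z + z') + 0 * (1 / f) = (a + z + 0 * (1 / f)) + z' := by
                  simp only [CM.add_assoc', CM.add_comm', add_left_comm']
              _ = (b + z + 0 * (1 / f)) + z' := by rw [hz1]
              _ = b + (z + z') + 0 * (1 / f) := by
                  simp only [CM.add_assoc', CM.add_comm', add_left_comm']) (by
            rw [CM.div_eq' 0 (1 + -f)]
            calc a + (z + z') + 0 * (1 / (1 + -f)) = (a + z' + 0 * (1 / (1 + -f))) + z := by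
                  simp only [CM.add_assoc', CM.add_comm', add_left_comm']
              _ = (b + z' + 0 * (1 / (1 + -f))) + z := by rw [hz1']
              _ = b + (z + z') + 0 * (1 / (1 + -f)) := by
                  simp only [CM.add_assoc', CM.add_comm', add_left_comm'])
          rw [CM.add_assoc', CM.add_assoc' b] at h3
          exact hsep _ (hP.add_mem _ (hP.add_mem z hz z' hz') _ hf) h3
  let F := IsLocalRing.ResidueField (Lim P hP)
  let h : A → Option F := fun x =>
    if hx : 0 * x ∈ P then some (IsLocalRing.residue (Lim P hP) (mkL hP x hx)) else none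
  have h_good : ∀ (x : A) (hx : 0 * x ∈ P),
      h x = some (IsLocalRing.residue (Lim P hP) (mkL hP x hx)) := by
    intro x hx
    simp only [h, dif_pos hx]
  have h_bad : ∀ (x : A), 0 * x ∉ P → h x = none := by
    intro x hx
    simp only [h, dif_neg hx]
  have res_zero_iff : ∀ (x : A) (hx : 0 * x ∈ P),
      IsLocalRing.residue (Lim P hP) (mkL hP x hx) = 0 ↔ 0 * (1 / x) ∉ P := by
    intro x hx
    rw [IsLocalRing.residue_eq_zero_iff, IsLocalRing.mem_maximalIdeal, mem_nonunits_iff,
      isUnit_mkL_iff]
  have left_of_add : ∀ x y : A, 0 * (x + y) ∈ P → 0 * x ∈ P := by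
    intro x y hxy
    rw [e_add] at hxy
    exact hP.down _ _ hxy
  have right_of_add : ∀ x y : A, 0 * (x + y) ∈ P → 0 * y ∈ P := by
    intro x y hxy
    rw [CM.add_comm'] at hxy
    exact left_of_add _ _ hxy
  have e_mul_mem : ∀ x y : A, 0 * (x * y) ∈ P ↔ 0 * x ∈ P ∧ 0 * y ∈ P := by
    intro x y
    constructor
    · intro hxy
      rw [CM.e_mul'] at hxy
      exact ⟨left_of_add _ _ hxy, right_of_add _ _ hxy⟩
    · rintro ⟨hx, hy⟩
      exact good_mul hP hx hy
  refine ⟨F, inferInstance, h, ?_, ?_, ?_, ?_, ?_, ?_, ?_, ?_⟩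
  · rw [h_good 0 (good_zero hP), mkL_zero, map_zero]; rfl
  · rw [h_good 1 (good_one hP), mkL_one, map_one]; rfl
  · rw [h_bad _ (by rw [e_bot]; exact hbot)]; rfl
  · intro x
    by_cases hx : 0 * x ∈ P
    · rw [h_good x hx, h_good (-x) (good_neg hx), mkL_neg, map_neg]; rfl
    · rw [h_bad x hx, h_bad (-x) (by rw [e_neg]; exact hx)]; rfl
  · intro x y
    by_cases hx : 0 * x ∈ P
    · by_cases hy : 0 * y ∈ P
      · rw [h_good x hx, h_good y hy, h_good (x + y) (good_add hP hx hy), mkL_add, map_add]; rfl
      · rw [h_bad y hy, h_bad (x + y) (fun hxy => hy (right_of_add _ _ hxy)), h_good x hx]; rfl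
    · rw [h_bad x hx, h_bad (x + y) (fun hxy => hx (left_of_add _ _ hxy))]; rfl
  · intro x y
    by_cases hx : 0 * x ∈ P
    · by_cases hy : 0 * y ∈ P
      · rw [h_good x hx, h_good y hy, h_good (x * y) (good_mul hP hx hy), mkL_mul, map_mul]; rfl
      · rw [h_bad y hy, h_bad (x * y) (fun hxy => hy ((e_mul_mem x y).1 hxy).2), h_good x hx]; rfl
    · rw [h_bad x hx, h_bad (x * y) (fun hxy => hx ((e_mul_mem x y).1 hxy).1)]; rfl
  · intro x y
    rw [CM.div_eq']
    by_cases hx : 0 * x ∈ P
    · by_cases hy : 0 * y ∈ P
      · by_cases hy1 : 0 * (1 / y) ∈ P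
        · have hne : IsLocalRing.residue (Lim P hP) (mkL hP y hy) ≠ 0 := by
            intro h0
            exact (res_zero_iff y hy).1 h0 hy1
          have hinv : IsLocalRing.residue (Lim P hP) (mkL hP (1 / y) hy1) =
              (IsLocalRing.residue (Lim P hP) (mkL hP y hy))⁻¹ := by
            apply eq_inv_of_mul_eq_one_right
            rw [← map_mul, mkL_mul_inv, map_one]
          rw [h_good x hx, h_good y hy, h_good (x * (1 / y)) (good_mul hP hx hy1),
            mkL_mul hP x (1 / y) hx hy1, map_mul, hinv]
          simp only [commonMeadow, if_neg hne]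
        · have h0 : IsLocalRing.residue (Lim P hP) (mkL hP y hy) = 0 :=
            (res_zero_iff y hy).2 hy1
          rw [h_good x hx, h_good y hy, h_bad (x * (1 / y))
            (fun hxy => hy1 ((e_mul_mem x (1 / y)).1 hxy).2)]
          simp only [commonMeadow, if_pos h0]
      · rw [h_bad y hy, h_bad (x * (1 / y))
          (fun hxy => hy (good_of_inv hP ((e_mul_mem x (1 / y)).1 hxy).2)), h_good x hx]; rfl
    · rw [h_bad x hx, h_bad (x * (1 / y)) (fun hxy => hx ((e_mul_mem x (1 / y)).1 hxy).1)]; rfl
  · by_cases ha : 0 * a ∈ P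
    · by_cases hb : 0 * b ∈ P
      · rw [h_good a ha, h_good b hb]
        intro heq
        have heq' := Option.some.inj heq
        have h1 : IsLocalRing.residue (Lim P hP)
            (mkL hP (a + -b) (good_add hP ha (good_neg hb))) = 0 := by
          rw [mkL_add hP a (-b) ha (good_neg hb), mkL_neg hP b hb, map_add, map_neg, heq',
            add_neg_cancel]
        have h2 := (res_zero_iff _ _).1 h1
        obtain ⟨z, hz, hz1⟩ := hmax _ h2
        have hz' := hP.e_self z hz
        have hdist : ∀ c : A, c + z = c * (1 + z) := by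
          intro c
          rw [CM.mul_add', mul_one', CM.mul_comm' c z, mul_of_e hz', CM.add_comm' z,
            ← CM.add_assoc', add_e]
        have hinvz : 1 / (1 + z) = 1 + z := by
          have := CM.inv_e' z
          rwa [hz'] at this
        have hD : 0 * (1 / (a + -b + z)) = 0 * (1 / (a + -b)) + z := by
          rw [hdist, CM.inv_mul', hinvz, ← hdist, e_add, hz']
        have habs : 0 * b + 0 * (1 / (a + -b)) = 0 * (1 / (a + -b)) := by
          have h3 := e_le_e_inv (a + -b)
          rw [e_add, e_neg] at h3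
          calc 0 * b + 0 * (1 / (a + -b)) = 0 * b + (0 * a + 0 * b + 0 * (1 / (a + -b))) := by
                rw [h3]
            _ = 0 * a + (0 * b + 0 * b) + 0 * (1 / (a + -b)) := by
                simp only [CM.add_assoc', add_left_comm']
            _ = 0 * (1 / (a + -b)) := by rw [e_idem, h3]
        have hzz : z + z = z := by
          calc z + z = z + 0 * z := by rw [hz']
            _ = z := add_e z
        have hx := CM.ax2 (a + -b + z) (by
          rw [CM.div_eq', hD]
          calc a + -b + z + (0 * (1 / (a + -b)) + z)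
              = (a + z + 0 * (1 / (a + -b))) + (-b + z) := by
                simp only [CM.add_assoc', CM.add_comm', add_left_comm']
            _ = (b + z + 0 * (1 / (a + -b))) + (-b + z) := by rw [hz1]
            _ = (b + -b) + (0 * (1 / (a + -b)) + (z + z)) := by
                simp only [CM.add_assoc', CM.add_comm', add_left_comm']
            _ = (0 * b + 0 * (1 / (a + -b))) + z := by
                rw [CM.add_neg', hzz, CM.add_assoc']
            _ = 0 * (1 / (a + -b)) + z := by rw [habs])
        rw [e_add, e_add, e_neg, hz'] at hx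
        apply hsep (0 * a + 0 * b + z) (hP.add_mem _ (hP.add_mem _ ha _ hb) _ hz)
        calc a + (0 * a + 0 * b + z) = (a + 0 * a) + 0 * b + z := by
              simp only [CM.add_assoc']
          _ = a + (b + -b) + z := by rw [add_e, CM.add_neg']
          _ = b + (a + -b + z) := by
              simp only [CM.add_assoc', add_left_comm']
          _ = b + (0 * a + 0 * b + z) := by rw [hx]
      · rw [h_good a ha, h_bad b hb]
        exact fun h => Option.some_ne_none _ h
    · by_cases hb : 0 * b ∈ P
      · rw [h_bad a ha, h_good b hb]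
        exact fun h => Option.some_ne_none _ h.symm
      · exfalso
        obtain ⟨z, hz, hz1⟩ := hmax a ha
        obtain ⟨z', hz', hz1'⟩ := hmax b hb
        apply hsep (z + z') (hP.add_mem z hz z' hz')
        have h1 : a + (z + z') = b + (z + z') + 0 * a := by
          calc a + (z + z') = (a + 0 * a) + (z + z') := by rw [add_e]
            _ = (a + z + 0 * a) + z' := by
                simp only [CM.add_assoc', CM.add_comm', add_left_comm']
            _ = (b + z + 0 * a) + z' := by rw [hz1]
            _ = b + (z + z') + 0 * a := by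
                simp only [CM.add_assoc', CM.add_comm', add_left_comm']
        have h2 : b + (z + z') = a + (z + z') + 0 * b := by
          calc b + (z + z') = (b + 0 * b) + (z + z') := by rw [add_e]
            _ = (b + z' + 0 * b) + z := by
                simp only [CM.add_assoc', CM.add_comm', add_left_comm']
            _ = (a + z' + 0 * b) + z := by rw [hz1']
            _ = a + (z + z') + 0 * b := by
                simp only [CM.add_assoc', CM.add_comm', add_left_comm']
        have h3 : a + (z + z') + 0 * b = a + (z + z') := by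
          calc a + (z + z') + 0 * b = (b + (z + z') + 0 * a) + 0 * b := by rw [← h1]
            _ = (b + 0 * b) + (z + z') + 0 * a := by
                simp only [CM.add_assoc', CM.add_comm', add_left_comm']
            _ = b + (z + z') + 0 * a := by rw [add_e]
            _ = a + (z + z') := h1.symm
        rw [h2, h3]

/-! ## The basis axiomatises the conditional equational theory -/

theorem eval_hom {A : Type u} (S : SigAlg A) {F : Type u} [Field F] (h : A → Option F)
    (h0 : h S.zero = (commonMeadow F).zero) (h1 : h S.one = (commonMeadow F).one)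
    (hb : h S.bot = (commonMeadow F).bot)
    (hn : ∀ x, h (S.neg x) = (commonMeadow F).neg (h x))
    (ha : ∀ x y, h (S.add x y) = (commonMeadow F).add (h x) (h y))
    (hm : ∀ x y, h (S.mul x y) = (commonMeadow F).mul (h x) (h y))
    (hd : ∀ x y, h (S.div x y) = (commonMeadow F).div (h x) (h y))
    (v : ℕ → A) (s : STerm) :
    h (s.eval S v) = s.eval (commonMeadow F) (fun n => h (v n)) := by
  induction s with
  | var n => rfl
  | zero => exact h0
  | one => exact h1
  | bot => exact hb
  | neg s ih => simp only [STerm.eval, hn, ih]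
  | add s t ih1 ih2 => simp only [STerm.eval, ha, ih1, ih2]
  | mul s t ih1 ih2 => simp only [STerm.eval, hm, ih1, ih2]
  | div s t ih1 ih2 => simp only [STerm.eval, hd, ih1, ih2]

/-- Every conditional equation valid in all common meadows holds in each model of the basis. -/
theorem sat_of_valid {A : Type u} (S : SigAlg A) (hS : ∀ ψ ∈ basis, S.Sat ψ) (φ : CondEq)
    (hφ : ∀ (F : Type u) [Field F], (commonMeadow F).Sat φ) : S.Sat φ := by
  intro v hv
  by_contra hne
  let _ := toCM S hS
  obtain ⟨F, hF, h, h0, h1, hb, hn, ha, hm, hd, hsep⟩ := exists_sep hne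
  apply hsep
  have key := eval_hom S h h0 h1 hb hn ha hm hd v
  rw [key, key]
  apply hφ F
  intro e he
  rw [← key, ← key, hv e he]

/-- The value of a numeral in a common meadow. -/
theorem eval_numeral {F : Type u} [Field F] (v : ℕ → Option F) (n : ℕ) :
    (numeral n).eval (commonMeadow F) v = some (n : F) := by
  induction n using numeral.induct with
  | case1 => simp [numeral, STerm.eval, commonMeadow]
  | case2 => simp [numeral, STerm.eval, commonMeadow]
  | case3 n ih =>
    simp only [numeral, STerm.eval, ih]
    simp [commonMeadow]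

/-- `φ_p` is true in every common meadow for each prime `p ≥ 5`. -/
theorem phi_valid (p : ℕ) (hp : p.Prime) (h5 : 5 ≤ p) (F : Type u) [Field F] :
    (commonMeadow F).Sat (phi p) := by
  intro v hv
  have h := hv _ (List.Mem.head _)
  simp only [phi, STerm.eval, eval_numeral] at h ⊢
  simp only [commonMeadow] at h ⊢
  have key : ∀ q : ℕ, q.Prime → 2 < q → ((2 : ℕ) : F) = 0 → ((q : ℕ) : F) ≠ 0 := by
    intro q hq hq2 h2 hq0
    have hcop : Nat.Coprime 2 q := (Nat.coprime_primes Nat.prime_two hq).2 (by omega)
    have h3 : ((Nat.gcd 2 q : ℕ) : ℤ) = 2 * Nat.gcdA 2 q + q * Nat.gcdB 2 q :=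
      Nat.gcd_eq_gcd_ab 2 q
    rw [hcop.gcd_eq_one] at h3
    have h4 := congrArg (fun t : ℤ => (t : F)) h3
    push_cast at h4 h2
    rw [h2, hq0] at h4
    simp at h4
  by_cases h2 : ((2 : ℕ) : F) = 0
  · rw [if_neg (key 3 Nat.prime_three (by norm_num) h2), if_neg (key p hp (by omega) h2)]
    simp
  · rw [if_neg h2] at h
    by_cases h3 : ((3 : ℕ) : F) = 0
    · rw [if_pos h3] at h ⊢
      by_cases h4 : ((p : ℕ) : F) = 0
      · rw [if_pos h4]
      · rw [if_neg h4] at h
        simp at h
    · rw [if_neg h3] at h ⊢
      by_cases h4 : ((p : ℕ) : F) = 0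
      · rw [if_pos h4] at h
        simp at h
      · rw [if_neg h4]
        simp

/-- There is a finite set `E` of conditional equations, each true in every common meadow, from
which every conditional equation true in all common meadows is derivable in conditional
equational logic; in particular `E ⊢ φ_p` for every prime `p ≥ 5`. -/
theorem result : ∃ E : Set CondEq, E.Finite ∧
    (∀ ψ ∈ E, ∀ (F : Type u) [Field F], (commonMeadow F).Sat ψ) ∧
    (∀ φ : CondEq, (∀ (F : Type) [Field F], (commonMeadow F).Sat φ) → Derivable E φ) ∧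
    (∀ p : ℕ, p.Prime → 5 ≤ p → Derivable E (phi p)) := by
  have hcomp : ∀ φ : CondEq, (∀ (F : Type) [Field F], (commonMeadow F).Sat φ) →
      Derivable {ψ | ψ ∈ basis} φ :=
    fun φ hφ => completeness (fun A S hS => sat_of_valid S hS φ hφ)
  refine ⟨{ψ | ψ ∈ basis}, List.finite_toSet basis, ?_, hcomp, ?_⟩
  · intro ψ hψ F _
    exact basis_valid ψ hψ F
  · intro p hp h5
    exact hcomp _ (fun F _ => phi_valid p hp h5 F)

end Pool.Agent.Results.MP_f888fa_lc.FiniteBasis
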